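import Pool.Agent.Lib_helper50.A55.TDefs
import Pool.Agent.Lib_helper50.A55.B.T3
import Pool.Agent.Lib_helper78.A55.P_L1

/-!
# MP_a55cb8, block T10: the bridge to the level layer (helper78)
-/

open Matrix Finset

namespace A55

noncomputable section



/-! ## change of the dimensions -/

theorem T10_gen1 {d1 d0 n : ℕ} (h1 : d1 = n) (h0 : d0 = n) (X : Matrix (Fin d1) (Fin d0) ℝ)
    (G : Matrix (Fin d0) (Fin d0) ℝ) (X' G' : Matrix (Fin n) (Fin n) ℝ)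
    (hX : ∀ a b (ha : a < d1) (hb : b < d0) (ha' : a < n) (hb' : b < n),
      X ⟨a, ha⟩ ⟨b, hb⟩ = X' ⟨a, ha'⟩ ⟨b, hb'⟩)
    (hG : ∀ a b (ha : a < d0) (hb : b < d0) (ha' : a < n) (hb' : b < n),
      G ⟨a, ha⟩ ⟨b, hb⟩ = G' ⟨a, ha'⟩ ⟨b, hb'⟩) (u v : ℕ → ℝ) (i : ℕ) (hi : i < d1)
    (hi' : i < n) :
    (X *ᵥ (G *ᵥ (Xᵀ *ᵥ toV d1 u))) ⟨i, hi⟩ = (X' *ᵥ (G' *ᵥ (X'ᵀ *ᵥ toV n u))) ⟨i, hi'⟩ ∧
    (X *ᵥ (G *ᵥ toV d0 v)) ⟨i, hi⟩ = (X' *ᵥ (G' *ᵥ toV n v)) ⟨i, hi'⟩ := by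
  subst h1
  subst h0
  have e1 : X = X' := by
    ext a b
    exact hX a b a.2 b.2 a.2 b.2
  have e2 : G = G' := by
    ext a b
    exact hG a b a.2 b.2 a.2 b.2
  rw [e1, e2]
  exact ⟨rfl, rfl⟩

theorem T10_gen2 {d1 d0 n : ℕ} (h1 : d1 = n) (h0 : d0 = n) (X : Matrix (Fin d1) (Fin d0) ℝ)
    (G : Matrix (Fin d0) (Fin d0) ℝ) (X' G' : Matrix (Fin n) (Fin n) ℝ)
    (hX : ∀ a b (ha : a < d1) (hb : b < d0) (ha' : a < n) (hb' : b < n),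
      X ⟨a, ha⟩ ⟨b, hb⟩ = X' ⟨a, ha'⟩ ⟨b, hb'⟩)
    (hG : ∀ a b (ha : a < d0) (hb : b < d0) (ha' : a < n) (hb' : b < n),
      G ⟨a, ha⟩ ⟨b, hb⟩ = G' ⟨a, ha'⟩ ⟨b, hb'⟩) (u : ℕ → ℝ) (i : ℕ) (hi : i < d0)
    (hi' : i < n) :
    (G *ᵥ (Xᵀ *ᵥ toV d1 u)) ⟨i, hi⟩ = (G' *ᵥ (X'ᵀ *ᵥ toV n u)) ⟨i, hi'⟩ := by
  subst h1
  subst h0
  have e1 : X = X' := by
    ext a b
    exact hX a b a.2 b.2 a.2 b.2
  have e2 : G = G' := by
    ext a b
    exact hG a b a.2 b.2 a.2 b.2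
  rw [e1, e2]

section
variable {mm : ℕ → ℕ} (Φ : Lib mm)

/-- the solver number `R` as a matrix -/
theorem T10_Qm {n : ℕ} (Θ : ChT.den) (R a b : ℕ) (ha : a < chD Θ R) (hb : b < chD Θ R)
    (ha' : a < n) (hb' : b < n) :
    (chainOf Θ).g R ⟨a, ha⟩ ⟨b, hb⟩ = Qm n Θ R ⟨a, ha'⟩ ⟨b, hb'⟩ := by
  unfold Qm
  rw [dif_pos ⟨ha, hb⟩]

theorem T10_X0 {n : ℕ} (Θ : ChT.den) (R : ℕ) (E : OpT.den) (h : Θ.1 R = (0, E)) (a b : ℕ)
    (ha : a < chD Θ (R + 1)) (hb : b < chD Θ R) (ha' : a < n) (hb' : b < n) :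
    (chainOf Θ).X R ⟨a, ha⟩ ⟨b, hb⟩ = toM n n (opA E) ⟨a, ha'⟩ ⟨b, hb'⟩ := by
  show fopA (Θ.1 R) a b = opA E a b
  rw [h]
  rfl

theorem T10_X1 {n : ℕ} (Θ : ChT.den) (R : ℕ) (E : OpT.den) (h : Θ.1 R = (1, E)) (a b : ℕ)
    (ha : a < chD Θ (R + 1)) (hb : b < chD Θ R) (ha' : a < n) (hb' : b < n) :
    (chainOf Θ).X R ⟨a, ha⟩ ⟨b, hb⟩ = (toM n n (opA E))ᵀ ⟨a, ha'⟩ ⟨b, hb'⟩ := by
  show fopA (Θ.1 R) a b = opA E b a
  rw [h]
  rfl

/-- the score program computes `estR` -/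
theorem T10_score {n M : ℕ} (Θ : ChT.den) (R : ℕ) (X' : Matrix (Fin n) (Fin n) ℝ)
    (hOK : ChOK Θ R) (h1 : chD Θ (R + 1) = n) (h0 : chD Θ R = n)
    (hX : ∀ a b (ha : a < chD Θ (R + 1)) (hb : b < chD Θ R) (ha' : a < n) (hb' : b < n),
      (chainOf Θ).X R ⟨a, ha⟩ ⟨b, hb⟩ = X' ⟨a, ha'⟩ ⟨b, hb'⟩) (lam : ℝ)
    (hlam : Θ.2.1.1 R = lam) (s1 s2 : ℕ → ℕ → ℝ)
    (G : (Fin M → Fin n → Bool) × (Fin M → Fin n → Bool))
    (hs1 : ∀ (r : Fin M) (j : Fin n), s1 r j = sgn (G.1 r j))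
    (hs2 : ∀ (r : Fin M) (j : Fin n), s2 r j = sgn (G.2 r j)) (i : Fin n) :
    Φ.score (R, (Θ, (M, (s1, s2)))) i = estR X' (Qm n Θ R) lam G i := by
  have hi : (i : ℕ) < chD Θ (R + 1) := by rw [h1]; exact i.2
  have h2 := Φ.score_eq R Θ M s1 s2 hOK ⟨i, hi⟩
  refine Eq.trans h2 ?_
  unfold estR
  rw [Finset.sum_range]
  refine Finset.sum_congr rfl fun r _ => ?_
  have h3 := T10_gen1 h1 h0 ((chainOf Θ).X R) ((chainOf Θ).g R) X' (Qm n Θ R) hX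
    (fun a b ha hb ha' hb' => T10_Qm Θ R a b ha hb ha' hb') (s1 r) (s2 r) i hi i.2
  have e1 : toV n (s1 r) = sv (G.1 r) := by
    funext j
    exact hs1 r j
  have e2 : toV n (s2 r) = sv (G.2 r) := by
    funext j
    exact hs2 r j
  rw [← e1, ← e2, hlam]
  have h4 := h3.1
  have h5 := h3.2
  exact congrArg₂ (fun a b : ℝ => a ^ 2 + lam * b ^ 2) h4 h5

/-- the cleaning program computes `estN` -/
theorem T10_clean {n M : ℕ} (Θ : ChT.den) (R : ℕ) (X' : Matrix (Fin n) (Fin n) ℝ)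
    (hOK : ChOK Θ R) (h1 : chD Θ (R + 1) = n) (h0 : chD Θ R = n)
    (hX : ∀ a b (ha : a < chD Θ (R + 1)) (hb : b < chD Θ R) (ha' : a < n) (hb' : b < n),
      (chainOf Θ).X R ⟨a, ha⟩ ⟨b, hb⟩ = X' ⟨a, ha'⟩ ⟨b, hb'⟩) (lam : ℝ)
    (hlam : Θ.2.1.1 R = lam) (w : ℕ → ℝ) (s : ℕ → ℕ → ℝ) (w' : Fin n → ℝ)
    (G : Fin M → Fin n → Bool) (hw : ∀ j : Fin n, w j = w' j)
    (hs : ∀ (r : Fin M) (j : Fin n), s r j = sgn (G r j)) (i : Fin n) :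
    Φ.clean (R, (Θ, (M, (w, s)))) i = estN X' (Qm n Θ R) lam w' G i := by
  have hi : (i : ℕ) < chD Θ R := by rw [h0]; exact i.2
  have h2 := Φ.clean_eq R Θ M w s hOK ⟨i, hi⟩
  refine Eq.trans h2 ?_
  unfold estN
  rw [Finset.sum_range]
  refine Finset.sum_congr rfl fun r _ => ?_
  have h3 := T10_gen2 h1 h0 ((chainOf Θ).X R) ((chainOf Θ).g R) X' (Qm n Θ R) hX
    (fun a b ha hb ha' hb' => T10_Qm Θ R a b ha hb ha' hb') (fun p => w p * s r p) i hi i.2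
  have e1 : toV n (fun p => w p * s r p) = fun p => w' p * sgn (G r p) := by
    funext j
    show w j * s r j = w' j * sgn (G r j)
    rw [hw, hs]
  rw [← e1, hlam]
  exact congrArg (fun a : ℝ => (lam * a) ^ 2) h3

/-- the rates -/
theorem T10_rates (n E : ℕ) (L : ℝ) (est : ℕ → ℝ) (est' : Fin n → ℝ)
    (h : ∀ i : Fin n, est i = est' i) (i : Fin n) :
    Φ.rates ((n, E), (L, est)) i = rateE E L est' i := by
  obtain ⟨h1, h2, h3⟩ := Φ.rates_eq n E L est i i.2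
  unfold rateE
  rw [h i] at h2 h3
  exact expo_unique E (L * est' i) _ h1 h2 h3

theorem T10_bad (n : ℕ) (thr : ℝ) (e : ℕ → ℕ) (est : ℕ → ℝ) (f : Fin n → ℕ)
    (est' : Fin n → ℝ) (he : ∀ i : Fin n, e i = f i) (h : ∀ i : Fin n, est i = est' i)
    (i : Fin n) :
    decide (Φ.bad ((n, thr), (e, est)) i = 1) = badOf thr f est' i := by
  have h1 := (Φ.bad_eq n thr e est i i.2).1
  unfold badOf
  rw [he i, h i] at h1
  exact decide_eq_decide.2 h1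

end

section
variable {mm : ℕ → ℕ} (Φ : Lib mm) (c : Cst) (x : InT.den) (A0 : CooT.den) (g : GT.den)

/-- the step from level `j` to level `j + 1` in the notation of the level layer -/
noncomputable def ldOf (j : ℕ) (st : StT.den) (Θ : ChT.den) (w : ℕ → Bool) : LD x.1.1 :=
  LD.next (M := pl c x ^ 6) (B := 2 * pl c x) (pl c x) ((pl c x : ℝ) ^ 10) (En x g)
    (Qm x.1.1 Θ (topIx g j)) (Qm x.1.1 Θ (topIx g j + 2)) (Qm x.1.1 Θ (topIx g j + 1))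
    (lamM c x g j) (lamM c x g (j + 1)) (sM x st j) (decode x.1.1 (pl c x ^ 6) (2 * pl c x) w)

end

theorem T10_bw {W : ℕ} (w : Fin W → Bool) (t : ℕ) :
    decide (bw w t = 1) = if h : t < W then w ⟨t, h⟩ else false := by
  unfold bw
  by_cases h : t < W
  · rw [dif_pos h, dif_pos h]
    cases w ⟨t, h⟩ <;> simp
  · rw [dif_neg h, dif_neg h]
    simp

section
variable {mm : ℕ → ℕ} (Φ : Lib mm)

/-- the sign vectors -/
theorem T10_sgb {n M W : ℕ} (g : GT.den) (w : Fin W → Bool) (off : ℕ) (hM : gP g 13 = M)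
    (hn : gP g 0 = n) (r : Fin M) (j : Fin n) :
    sgb Φ g (bw w) off r j =
      sgn ((fun t => if h : t < W then w ⟨t, h⟩ else false) (off + (r * n + j))) := by
  unfold sgb
  rw [hM, hn]
  rw [Φ.sgns_eq M n _ r r.2 j j.2]
  congr 1
  unfold piece
  have h1 : (r : ℕ) * n + j < M * n := by
    calc (r : ℕ) * n + j < r * n + n := Nat.add_lt_add_left j.2 _
      _ = (r + 1) * n := by ring
      _ ≤ M * n := Nat.mul_le_mul_right _ r.2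
  rw [tabV_lt h1]
  exact T10_bw w _

/-- the samples -/
theorem T10_smp {n E W : ℕ} (h : ℕ) (e bad : ℕ → ℕ) (w : Fin W → Bool) (off : ℕ)
    (f : Fin n → ℕ) (bd : Fin n → Bool) (he : ∀ i < n, 2 * e i ≤ 2 * E)
    (hf : ∀ i : Fin n, e i = f i) (hb : ∀ i : Fin n, decide (bad i = 1) = bd i) (i : Fin n) :
    sdW (Φ.smp ((n, (2 * E, h)), (e, (bad, piece (bw w) off (n * (2 * E)))))) i =
      wt (f i) (bd i) (fun t : Fin (2 * E) =>
        (fun t => if h : t < W then w ⟨t, h⟩ else false) (off + (i * (2 * E) + t))) := by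
  have h1 := (Φ.smp_eq n (2 * E) h e bad (piece (bw w) off (n * (2 * E))) he).2.1 i
  refine Eq.trans h1 ?_
  rw [hf i, hb i]
  congr 1
  funext t
  unfold piece
  have h1 : (i : ℕ) * (2 * E) + t < n * (2 * E) := by
    calc (i : ℕ) * (2 * E) + t < i * (2 * E) + 2 * E := Nat.add_lt_add_left t.2 _
      _ = (i + 1) * (2 * E) := by ring
      _ ≤ n * (2 * E) := Nat.mul_le_mul_right _ i.2
  rw [tabV_lt h1]
  exact T10_bw w _

end

section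
variable {mm : ℕ → ℕ} (Φ : Lib mm) (c : Cst) (x : InT.den) (A0 : CooT.den) (g : GT.den)

theorem bridge (hc : Big c) (hg : GOK c x A0 g) (j : ℕ) (st : StT.den) (w0 : ℕ → ℕ)
    (hL : Lev Φ g j st) (hj : j ≤ pl c x ^ 3) (w : Fin (pW c x) → Bool) :
    ∀ Θ D, Θ = theta Φ g j st w0 →
      D = ldOf c x g j st Θ (fun t => if h : t < pW c x then w ⟨t, h⟩ else false) →
      (∀ i : Fin x.1.1, eOf Φ g j Θ (bw w) i = D.e i) ∧
      (∀ i : Fin x.1.1, fOf Φ g j Θ (bw w) i = D.f i) ∧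
      (∀ i : Fin x.1.1,
        sdW (tOf Φ g j Θ (st.2.1.1 j) (fOf Φ g j Θ (bw w)) (bw w)) i = D.t i) ∧
      (∀ i : Fin x.1.1, sdW (sOf Φ g j Θ (tOf Φ g j Θ (st.2.1.1 j) (fOf Φ g j Θ (bw w)) (bw w))
        (eOf Φ g j Θ (bw w)) (bw w)) i = D.s i) := by
  intro Θ D hΘ hD
  have sh := chain_shape Φ c x A0 g hc hg j st w0 hL hj
  rw [← hΘ] at sh
  obtain ⟨ok2, d0, d1, d2, x0, x1, x2, l0, l1, l2, -⟩ := sh
  have h0 : gP g 0 = x.1.1 := by rw [gP, hg.hP]; rfl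
  have h5 : gP g 5 = pl c x := by rw [gP, hg.hP]; rfl
  have h13 : gP g 13 = pl c x ^ 6 := by rw [gP, hg.hP]; rfl
  have q0 : gQ g 0 = ((pl c x : ℝ) ^ 10) ^ 10 := by
    have : gQ g 0 = (pl c x : ℝ) ^ 100 := by rw [gQ, hg.hQ]; rfl
    rw [this, ← pow_mul]
  have q1 : gQ g 1 = ((pl c x : ℝ) ^ 10)⁻¹ ^ 3 / 4 := by
    have : gQ g 1 = (4 * (pl c x : ℝ) ^ 30)⁻¹ := by rw [gQ, hg.hQ]; rfl
    rw [this, inv_pow, ← pow_mul, mul_inv]
    ring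
  have lam1 : gLam g j = lamM c x g j := hg.lamE j (by omega)
  have lam2 : gLam g (j + 1) = lamM c x g (j + 1) := hg.lamE (j + 1) (by omega)
  have ok0 : ChOK Θ (topIx g j) :=
    ⟨fun r hr => ok2.1 r (by omega), fun r hr => ok2.2.1 r (by omega), ok2.2.2⟩
  have ok1 : ChOK Θ (topIx g j + 1) :=
    ⟨fun r hr => ok2.1 r (by omega), fun r hr => ok2.2.1 r (by omega), ok2.2.2⟩
  have dim : opR (gE g) = x.1.1 ∧ opC (gE g) = x.1.1 := by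
    unfold opR opC
    rw [hg.dim]
    exact ⟨rfl, rfl⟩
  have d3 : chD Θ (topIx g j + 2 + 1) = x.1.1 := by
    show fopR (Θ.1 (topIx g j + 2)) = x.1.1
    rw [x2]
    exact dim.1
  -- exponents
  have hE : ∀ i : Fin x.1.1, eOf Φ g j Θ (bw w) i = D.e i := by
    intro i
    rw [hD]
    show Φ.rates ((gP g 0, gP g 5), (gQ g 0, Φ.score (topIx g j + 2, (Θ, (gP g 13,
      (sgb Φ g (bw w) (0 * (gP g 13 * gP g 0)), sgb Φ g (bw w) (1 * (gP g 13 * gP g 0)))))))) i =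
      rateE (pl c x) (((pl c x : ℝ) ^ 10) ^ 10) (estR (En x g) (Qm x.1.1 Θ (topIx g j + 2))
        (lamM c x g (j + 1)) (decode x.1.1 (pl c x ^ 6) (2 * pl c x)
          (fun t => if h : t < pW c x then w ⟨t, h⟩ else false)).1.1) i
    rw [h0, h5, q0, h13]
    refine T10_rates Φ _ _ _ _ _ (fun i => ?_) i
    refine T10_score Φ Θ (topIx g j + 2) (En x g) ok2 d3 d2
      (fun a b ha hb ha' hb' => T10_X0 Θ _ (gE g) x2 a b ha hb ha' hb') _ l2 _ _ _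
      (fun r j' => ?_) (fun r j' => ?_) i
    · exact T10_sgb Φ g w _ h13 h0 r j'
    · exact T10_sgb Φ g w _ h13 h0 r j'
  have hF : ∀ i : Fin x.1.1, fOf Φ g j Θ (bw w) i = D.f i := by
    intro i
    rw [hD]
    show Φ.rates ((gP g 0, gP g 5), (gQ g 0, Φ.score (topIx g j + 1, (Θ, (gP g 13,
      (sgb Φ g (bw w) (2 * (gP g 13 * gP g 0)), sgb Φ g (bw w) (3 * (gP g 13 * gP g 0)))))))) i =
      rateE (pl c x) (((pl c x : ℝ) ^ 10) ^ 10) (estR (En x g)ᵀ (Qm x.1.1 Θ (topIx g j + 1))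
        (lamM c x g (j + 1)) (decode x.1.1 (pl c x ^ 6) (2 * pl c x)
          (fun t => if h : t < pW c x then w ⟨t, h⟩ else false)).1.2) i
    rw [h0, h5, q0, h13]
    refine T10_rates Φ _ _ _ _ _ (fun i => ?_) i
    refine T10_score Φ Θ (topIx g j + 1) (En x g)ᵀ ok1 d2 d1
      (fun a b ha hb ha' hb' => T10_X1 Θ _ (gE g) x1 a b ha hb ha' hb') _ l1 _ _ _
      (fun r j' => ?_) (fun r j' => ?_) i
    · exact T10_sgb Φ g w _ h13 h0 r j'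
    · exact T10_sgb Φ g w _ h13 h0 r j'
  have heb : ∀ i < x.1.1, 2 * eOf Φ g j Θ (bw w) i ≤ 2 * pl c x := by
    intro i hi
    have := (Φ.rates_eq (gP g 0) (gP g 5) (gQ g 0) (Φ.score (topIx g j + 2, (Θ, (gP g 13,
      (sgb Φ g (bw w) (0 * (gP g 13 * gP g 0)), sgb Φ g (bw w) (1 * (gP g 13 * gP g 0)))))))
      i (by rw [h0]; exact hi)).1
    have h6 : eOf Φ g j Θ (bw w) i ≤ gP g 5 := this
    rw [h5] at h6
    exact Nat.mul_le_mul_left 2 h6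
  have hfb : ∀ i < x.1.1, 2 * fOf Φ g j Θ (bw w) i ≤ 2 * pl c x := by
    intro i hi
    have := (Φ.rates_eq (gP g 0) (gP g 5) (gQ g 0) (Φ.score (topIx g j + 1, (Θ, (gP g 13,
      (sgb Φ g (bw w) (2 * (gP g 13 * gP g 0)), sgb Φ g (bw w) (3 * (gP g 13 * gP g 0)))))))
      i (by rw [h0]; exact hi)).1
    have h6 : fOf Φ g j Θ (bw w) i ≤ gP g 5 := this
    rw [h5] at h6
    exact Nat.mul_le_mul_left 2 h6
  have hwarr : ∀ (S : SDT.den) (i : Fin x.1.1), wArr x.1.1 S i = sdW S i := by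
    intro S i
    unfold wArr
    exact tabV_lt i.2
  have hT : ∀ i : Fin x.1.1,
      sdW (tOf Φ g j Θ (st.2.1.1 j) (fOf Φ g j Θ (bw w)) (bw w)) i = D.t i := by
    intro i
    unfold tOf
    rw [h0, h5, h13, q1, lam1]
    refine Eq.trans (T10_smp Φ (E := pl c x) (gP g 22) (fOf Φ g j Θ (bw w)) _ w _ D.f
      (badOf (((pl c x : ℝ) ^ 10)⁻¹ ^ 3 / 4 * lamM c x g j) D.f (estN (En x g)
        (Qm x.1.1 Θ (topIx g j)) (lamM c x g j) (sM x st j) (decode x.1.1 (pl c x ^ 6)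
          (2 * pl c x) (fun t => if h : t < pW c x then w ⟨t, h⟩ else false)).2.1)) hfb hF
      (fun i => ?_) i) ?_
    · refine T10_bad Φ _ _ _ _ _ _ hF (fun i => ?_) i
      exact T10_clean Φ Θ (topIx g j) (En x g) ok0 d1 d0
        (fun a b ha hb ha' hb' => T10_X0 Θ _ (gE g) x0 a b ha hb ha' hb') _ l0 _ _ _ _
        (fun i => hwarr _ i) (fun r j' => T10_sgb Φ g w _ h13 h0 r j') i
    · rw [hD]
      rfl
  refine ⟨hE, hF, hT, ?_⟩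
  intro i
  unfold sOf
  rw [h0, h5, h13, q1, lam2]
  refine Eq.trans (T10_smp Φ (E := pl c x) (gP g 22) (eOf Φ g j Θ (bw w)) _ w _ D.e
    (badOf (((pl c x : ℝ) ^ 10)⁻¹ ^ 3 / 4 * lamM c x g (j + 1)) D.e (estN (En x g)ᵀ
      (Qm x.1.1 Θ (topIx g j + 1)) (lamM c x g (j + 1)) D.t (decode x.1.1 (pl c x ^ 6)
        (2 * pl c x) (fun t => if h : t < pW c x then w ⟨t, h⟩ else false)).2.2.2.1)) heb hE
    (fun i => ?_) i) ?_
  · refine T10_bad Φ _ _ _ _ _ _ hE (fun i => ?_) i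
    exact T10_clean Φ Θ (topIx g j + 1) (En x g)ᵀ ok1 d2 d1
      (fun a b ha hb ha' hb' => T10_X1 Θ _ (gE g) x1 a b ha hb ha' hb') _ l1 _ _ _ _
      (fun i => (hwarr _ i).trans (hT i)) (fun r j' => T10_sgb Φ g w _ h13 h0 r j') i
  · rw [hD]
    rfl

end

end

end A55
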