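import Pool.Agent.Lib_helper78.A55T.F12c
import Pool.Agent.Lib_helper78.A55T.F10

/-!
# MP_a55cb8, block T12: step 1 (helper78)
-/

open Matrix Finset

namespace A55

noncomputable section

section
variable {mm : ℕ → ℕ} (Φ : Lib mm) (c : Cst) (x : InT.den) (A0 : CooT.den) (g : GT.den)
  (A : Matrix (Fin x.1.1) (Fin x.1.1) ℝ) (xs : Fin x.1.1 → ℝ) (sg sn : ℝ) (cs : ℕ)

theorem T12_W (hc : Big c) : 6 * (pl c x ^ 6 * x.1.1) + 2 * (x.1.1 * (2 * pl c x)) ≤ pW c x := by
  have hl := T12_pl hc x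
  unfold pW
  have h1 : 10 * pl c x ^ 6 ≤ pl c x ^ 8 := by
    calc 10 * pl c x ^ 6 ≤ (pl c x * pl c x) * pl c x ^ 6 :=
          Nat.mul_le_mul_right _ (by nlinarith)
      _ = pl c x ^ 8 := by ring
  have h2 : pl c x ≤ pl c x ^ 6 := Nat.le_self_pow (by norm_num) _
  calc 6 * (pl c x ^ 6 * x.1.1) + 2 * (x.1.1 * (2 * pl c x))
      = x.1.1 * (6 * pl c x ^ 6 + 4 * pl c x) := by ring
    _ ≤ x.1.1 * (10 * pl c x ^ 6) := Nat.mul_le_mul_left _ (by omega)
    _ ≤ x.1.1 * pl c x ^ 8 := Nat.mul_le_mul_left _ h1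

/-- the new state is good -/
theorem T12_good (hc : Big c) (hs : Setup Φ c x A0 g A xs sg sn) (hcs : 400 ≤ cs) (j : ℕ)
    (st st' : StT.den) (D : LD x.1.1) (S T : SDT.den) (e f : ℕ → ℕ)
    (h : GoodS Φ c x A0 g sg cs j st)
    (hst : st' = (st.1, ((Function.update st.2.1.1 (j + 1) S,
      Function.update st.2.1.2 (j + 1) T),
      ((Function.update st.2.2.1.1 (j + 1) (Φ.mkOp (gE g, (S, T))),
        Function.update st.2.2.1.2 (j + 1) (Φ.mkOp (gE g, (st.2.1.1 j, T)))), st.2.2.2))))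
    (hT : SDOK x.1.1 T) (hS : SDOK x.1.1 S) (hTn : ∀ i < x.1.1, T.2.1 i ≠ 0 → sdW T i ≠ 0)
    (hSn : ∀ i < x.1.1, S.2.1 i ≠ 0 → sdW S i ≠ 0)
    (hTf : ∀ i < x.1.1, ∀ p, T.2.1 i = p + 1 → T.2.2.2 p = if f i < ph c x then 1 else 0)
    (hSf : ∀ i < x.1.1, ∀ p, S.2.1 i = p + 1 → S.2.2.2 p = if e i < ph c x then 1 else 0)
    (he : ∀ i : Fin x.1.1, e i = D.e i) (hf : ∀ i : Fin x.1.1, f i = D.f i)
    (hDt : ∀ i : Fin x.1.1, sdW T i = D.t i) (hDs : ∀ i : Fin x.1.1, sdW S i = D.s i)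
    (hGL : GoodLevel (pl c x ^ 6) (pl c x) ((pl c x : ℝ) ^ 10) (En x g) (lamM c x g j)
      (lamM c x g (j + 1)) (lamM c x g (j + 2)) (sM x st j) D)
    (hGS : SizeG (pl c x) 20 x.1.2 (pm1 c x) (pm2 c x) (ph c x) sg (lamM c x g (j + 1))
      (lamM c x g (j + 2)) (En x g) (suppP x A0) (sM x st j) D) :
    GoodS Φ c x A0 g sg cs (j + 1) st' := by
  classical
  have h0 : gP g 0 = x.1.1 := by rw [gP, hs.gok.hP]; rfl
  have hlr : (1000 : ℝ) ≤ pl c x := by exact_mod_cast T12_pl hc x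
  have hl1 : (1 : ℝ) ≤ pl c x := by linarith
  have hlam2 := T12_lam_pos (c := c) (x := x) hs.lam_pos (j + 2)
  have hlam1 := T12_lam_pos (c := c) (x := x) hs.lam_pos (j + 1)
  have hanti : lamM c x g (j + 2) ≤ lamM c x g (j + 1) := T12_lam_anti hs.lam_pos (j + 1)
  have hsg := hs.sg_pos
  -- components of the new state
  have uS : st'.2.1.1 (j + 1) = S := by rw [hst]; exact Function.update_self ..
  have uT : st'.2.1.2 (j + 1) = T := by rw [hst]; exact Function.update_self ..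
  have uD : st'.2.2.1.1 (j + 1) = Φ.mkOp (gE g, (S, T)) := by
    rw [hst]; exact Function.update_self ..
  have uF : st'.2.2.1.2 (j + 1) = Φ.mkOp (gE g, (st.2.1.1 j, T)) := by
    rw [hst]; exact Function.update_self ..
  have vS : ∀ i, i ≠ j + 1 → st'.2.1.1 i = st.2.1.1 i := fun i hi => by
    rw [hst]; exact Function.update_of_ne hi _ _
  have vT : ∀ i, i ≠ j + 1 → st'.2.1.2 i = st.2.1.2 i := fun i hi => by
    rw [hst]; exact Function.update_of_ne hi _ _
  have vD : ∀ i, i ≠ j + 1 → st'.2.2.1.1 i = st.2.2.1.1 i := fun i hi => by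
    rw [hst]; exact Function.update_of_ne hi _ _
  have vF : ∀ i, i ≠ j + 1 → st'.2.2.1.2 i = st.2.2.1.2 i := fun i hi => by
    rw [hst]; exact Function.update_of_ne hi _ _
  have sMn : sM x st' (j + 1) = D.s := by
    funext p
    show sdW (st'.2.1.1 (j + 1)) p = D.s p
    rw [uS]; exact hDs p
  have tMn : tM x st' (j + 1) = D.t := by
    funext p
    show sdW (st'.2.1.2 (j + 1)) p = D.t p
    rw [uT]; exact hDt p
  have sMo : ∀ i, i ≠ j + 1 → sM x st' i = sM x st i := fun i hi => by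
    funext p
    show sdW (st'.2.1.1 i) p = sdW (st.2.1.1 i) p
    rw [vS i hi]
  have tMo : ∀ i, i ≠ j + 1 → tM x st' i = tM x st i := fun i hi => by
    funext p
    show sdW (st'.2.1.2 i) p = sdW (st.2.1.2 i) p
    rw [vT i hi]
  have hlev := h.lev
  have hLev : Lev Φ g (j + 1) st' := by
    refine ⟨?_, ?_, ?_, ?_⟩
    · rw [vS 0 (by omega)]; exact hlev.1
    · rw [vT 0 (by omega)]; exact hlev.2.1
    · intro i hi
      by_cases h1 : i = j + 1
      · rw [h1, uS, uT, uD, h0]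
        exact ⟨hS, hT, rfl⟩
      · rw [vS i h1, vT i h1, vD i h1]
        exact hlev.2.2.1 i (by omega)
    · intro i hi
      by_cases h1 : i = j
      · rw [h1, uF, uT, vS j (by omega)]
      · rw [vF (i + 1) (by omega), vS i (by omega), vT (i + 1) (by omega)]
        exact hlev.2.2.2 i (by omega)
  refine ⟨hLev, ?_, ?_, ?_, ?_⟩
  · -- levM
    have hM := h.levM
    have w2 : ∀ (v : ℝ) (m : ℕ), m ≤ pl c x → (v = 0 ∨ v = 2 ^ m) → 0 ≤ v ∧ v ≤ 2 ^ pl c x := by
      intro v m hm hv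
      rcases hv with hv | hv
      · rw [hv]; exact ⟨le_rfl, by positivity⟩
      · rw [hv]; exact ⟨by positivity, pow_le_pow_right₀ (by norm_num) hm⟩
    refine ⟨?_, ?_, ?_, ?_, ?_, ?_⟩
    · intro i hi
      by_cases h1 : i = j + 1
      · rw [h1, sMn]; exact hGL.validR
      · rw [sMo i h1]; exact hM.vS i (by omega)
    · intro i hi
      by_cases h1 : i = j + 1
      · rw [h1, tMn]; exact hGL.validC
      · rw [tMo i h1]; exact hM.vT i (by omega)
    · intro i hi
      by_cases h1 : i = j + 1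
      · rw [h1, sMn, tMn]; exact hGL.noise2
      · rw [sMo i h1, tMo i h1]; exact hM.n1 i (by omega)
    · intro i hi
      by_cases h1 : i = j
      · rw [h1, sMo j (by omega), tMn]; exact hGL.noise1
      · rw [sMo i (by omega), tMo (i + 1) (by omega)]; exact hM.n2 i (by omega)
    · intro i hi p
      by_cases h1 : i = j + 1
      · rw [h1, sMn]; exact w2 _ _ (hGL.e_le p) (hGL.wtR p)
      · rw [sMo i h1]; exact hM.wS i (by omega) p
    · intro i hi p
      by_cases h1 : i = j + 1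
      · rw [h1, tMn]; exact w2 _ _ (hGL.f_le p) (hGL.wtC p)
      · rw [tMo i h1]; exact hM.wT i (by omega) p
  · -- kill
    rw [sMn]; exact hGL.kill
  · -- next
    have hη := etaL_anti hsg.le hlam2 hanti
    have hη0 : 0 ≤ etaL sg (lamM c x g (j + 1)) := etaL_nonneg hsg.le hlam1
    have hη0' : 0 ≤ etaL sg (lamM c x g (j + 2)) := etaL_nonneg hsg.le hlam2
    have hN0 : (0 : ℝ) ≤ x.2.1 := Nat.cast_nonneg _
    have hcard : ((suppP x A0).card : ℝ) = x.2.1 := by
      rw [T12_card hs.gok.Aok hs.simple, hs.gok.len]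
    have hk1 : (1 : ℝ) ≤ x.1.2 := by
      have : 1 ≤ x.1.2 := (lt_of_le_of_lt hs.h1 hs.h2).le
      exact_mod_cast this
    have hnN : (x.1.1 : ℝ) ≤ x.2.1 := by exact_mod_cast hs.h4
    refine ⟨?_, ?_, ?_, ?_⟩
    · intro p hp
      rw [uS] at hp
      rw [sMn, ← hDs p]
      exact hSn p p.2 hp
    · rw [sMn]
      have h1 := hGS.nR
      have h2 : ∑ p, (if D.s p = 0 then (0 : ℝ) else 1) =
          ((univ.filter fun i => D.s i ≠ 0).card : ℝ) := by
        rw [← Finset.sum_boole]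
        refine Finset.sum_congr rfl fun p _ => ?_
        by_cases h3 : D.s p = 0 <;> simp [h3]
      rw [h2]
      refine h1.trans ?_
      have h3 : (pl c x : ℝ) ^ (130 + 20) ≤ (pl c x : ℝ) ^ (cs - 100) :=
        pow_le_pow_right₀ hl1 (by omega)
      refine mul_le_mul h3 ?_ (by positivity) (by positivity)
      have h4 : etaL sg (lamM c x g (j + 1)) * (x.1.1 : ℝ) ≤
          etaL sg (lamM c x g (j + 2)) * (x.2.1 : ℝ) :=
        mul_le_mul hη hnN (Nat.cast_nonneg _) hη0'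
      have h5 : (x.1.2 : ℝ) ≤ (x.1.2 : ℝ) ^ 2 := by nlinarith
      exact add_le_add h5 h4
    · rw [sMn]
      have h1 := hGS.rows
      have h2 : ∑ p : Fin x.1.1, (if D.s p = 0 then (0 : ℝ) else
          ((min (pl c x * rowCnt A0 p) (pm1 c x) : ℕ) : ℝ)) =
          ∑ i ∈ univ.filter (fun i => D.s i ≠ 0),
            ((min (pl c x * rowP (suppP x A0) i) (pm1 c x) : ℕ) : ℝ) := by
        rw [Finset.sum_filter]
        refine Finset.sum_congr rfl fun p _ => ?_
        have h4 : rowP (suppP x A0) p = rowCnt A0 p := by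
          unfold rowP rowCnt
          have := supp_filter x A0 hs.gok.Aok hs.simple (fun i _ => i = (p : ℕ))
          rw [← this]
          congr 1
          ext q
          simp [Fin.ext_iff]
        by_cases h3 : D.s p = 0
        · simp [h3]
        · simp [h3, h4]
      rw [h2]
      refine h1.trans ?_
      rw [hcard]
      have h3 : (pl c x : ℝ) ^ (250 + 2 * 20) ≤ (pl c x : ℝ) ^ (cs - 100) :=
        pow_le_pow_right₀ hl1 (by omega)
      refine mul_le_mul h3 ?_ (by positivity) (by positivity)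
      have h4 : etaL sg (lamM c x g (j + 1)) * (x.2.1 : ℝ) ≤
          etaL sg (lamM c x g (j + 2)) * (x.2.1 : ℝ) :=
        mul_le_mul_of_nonneg_right hη hN0
      exact add_le_add le_rfl h4
    · rw [sMn]
      exact (T12_next hs.gok.Aok hs.gok.len hs.simple sg _ D.s).1 hGS.next
  · -- sizes
    intro i hi
    by_cases h1 : i = j + 1
    · rw [h1]
      obtain ⟨n1, n2, n3, -⟩ := h.next
      refine sizeM_new Φ c x A0 g A xs sg sn cs hc hs hcs j st' hLev (sM x st j) D ?_ ?_ ?_ ?_ ?_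
        n2 n3 hGS
      · intro i hp
        rw [uS] at hp
        rw [← hDs i]
        exact hSn i i.2 hp
      · intro i hp
        rw [uT] at hp
        rw [← hDt i]
        exact hTn i i.2 hp
      · intro i p hp
        rw [uS] at hp ⊢
        rw [hSf i i.2 p hp, he i]
      · intro i p hp
        rw [uT] at hp ⊢
        rw [hTf i i.2 p hp, hf i]
      · intro i hp
        rw [vS j (by omega)] at hp
        exact n1 i hp
    · have h2 := h.size i (by omega)
      refine ⟨?_, ?_, ?_, ?_⟩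
      · rw [vD i h1]; exact h2.szD
      · rw [vF i h1]; exact h2.szF
      · rw [vD i h1, vS i h1, vT i h1]; exact h2.heavy
      · rw [vD i h1, vS i h1, vT i h1]; exact h2.rest

/-- step 1 -/
theorem step1_frac (hc : Big c) (hs : Setup Φ c x A0 g A xs sg sn) (hcs : 400 ≤ cs)
    (j : ℕ) (hj : j ≤ pl c x ^ 3) (st : StT.den) (h : Good1 Φ c x A0 g xs sg cs j st) :
    frac (fun w : Fin (pW c x) → Bool =>
      ¬ Good0 Φ c x A0 g xs sg cs (j + 1) (st1 Φ g j st (bw w))) ≤ 50 / (pl c x : ℝ) ^ 5 := by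
  classical
  have hlr : (1000 : ℝ) ≤ pl c x := by exact_mod_cast T12_pl hc x
  by_cases hout : st.1.1 = 0
  · obtain ⟨hGS, hlam, ⟨w0, hw0⟩, hQ, hQ2, hQ1⟩ := h.main hout
    have hk1 : 1 ≤ x.1.2 := (lt_of_le_of_lt hs.h1 hs.h2).le
    obtain ⟨m1, m2, m3⟩ := par_m c hc x hk1
    have hL : NextL (pl c x) 20 x.1.2 sg (lamM c x g (j + 1)) (En x g) (suppP x A0)
        (sM x st j) :=
      (T12_next hs.gok.Aok hs.gok.len hs.simple sg _ _).2 hGS.next.2.2.2
    have key := level_window (a := 20) (kk := pkk c x) (m1 := pm1 c x) (m2 := pm2 c x)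
      (k := x.1.2) (W := pW c x) (ph c x) (En x g)
      (Qm x.1.1 st.2.2.2 (topIx g j)) (Qm x.1.1 st.2.2.2 (topIx g j + 2))
      (Qm x.1.1 st.2.2.2 (topIx g j + 1)) (sM x st j) (lamM c x g j) (lamM c x g (j + 1))
      (lamM c x g (j + 2)) sg (dst c x) (suppP x A0) (T12_pl hc x) (T12_n hc x) hk1 m3 m1 m2
      hs.sg_pos.le hs.head (T12_lam_pos hs.lam_pos (j + 2)) (T12_lam_anti hs.lam_pos (j + 1))
      (T12_lam_anti hs.lam_pos j) (by unfold dst; positivity) le_rfl hQ hQ1 hQ2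
      (hGS.levM.vS j le_rfl) hGS.kill hL (T12_W c x hc)
    have hrhs : 50 * (1 / (pl c x : ℝ) ^ 5) = 50 / (pl c x : ℝ) ^ 5 := by ring
    rw [hrhs] at key
    refine le_trans (frac_mono ?_) key
    intro w hw hc'
    apply hw
    obtain ⟨hGL, hSZ⟩ := hc'
    obtain ⟨b1, b2, b3, b4⟩ := bridge Φ c x A0 g hc hs.gok j st w0 hGS.lev hj w st.2.2.2 _
      hw0 rfl
    obtain ⟨p1, p2, p3, p4, p5, p6⟩ := T12_smp Φ c x A0 g hs.gok j st.2.2.2 (st.2.1.1 j) (bw w)
      _ _ _ _ rfl rfl rfl rfl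
    have hst := T12_st1 Φ g j st (bw w) hout _ _ _ _ rfl rfl rfl rfl
    refine ⟨?_, ?_⟩
    · intro h1
      rw [hst] at h1
      exact absurd hout h1
    · intro _
      refine ⟨?_, Or.inr ?_⟩
      · exact T12_good Φ c x A0 g A xs sg sn cs hc hs hcs j st _ _ _ _ _ _ hGS hst p1 p2 p3 p4
          p5 p6 b1 b2 b3 b4 hGL hSZ
      · have h1 := T12_lam_succ (c := c) (x := x) (g := g) j
        have h2 := T12_Kpos (c := c) (x := x)
        rw [← h1] at hlam
        nlinarith
  · have h1 : ∀ w : Fin (pW c x) → Bool, st1 Φ g j st (bw w) = st := by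
      intro w
      unfold st1
      rw [if_neg hout]
    have h2 : (fun w : Fin (pW c x) → Bool =>
        ¬ Good0 Φ c x A0 g xs sg cs (j + 1) (st1 Φ g j st (bw w))) = fun _ => False := by
      funext w
      rw [h1 w, eq_iff_iff, iff_false, not_not]
      exact ⟨fun h3 => h.out h3, fun h3 => absurd h3 hout⟩
    rw [h2]
    unfold frac
    simp only [Finset.filter_false, Finset.card_empty, Nat.cast_zero, zero_div]
    positivity

end

end

end A55
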