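import Pool.Agent.Lib_helper78.A55T.T12Defs

/-!
# MP_a55cb8, block T12a1 (helper74)
-/

open Matrix Finset

namespace A55

theorem T12a1_lt (a b : ℕ) (h1 : a ≠ 0) (h2 : a ≤ b) : a - 1 < b := by omega

theorem T12a1_succ (a : ℕ) (h1 : a ≠ 0) : a = a - 1 + 1 := by omega

theorem T12a1_inj (a b : ℕ) (h1 : a ≠ 0) (h2 : b ≠ 0) (h : a - 1 = b - 1) : a = b := by omega

theorem T12a1_ne (a p : ℕ) (h : a = p + 1) : a ≠ 0 := by omega

theorem T12a1_pred (a p : ℕ) (h : a = p + 1) : a - 1 = p := by omega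

theorem T12a1_reidx {n : ℕ} {S : SDT.den} (h : SDOK n S) (F : ℕ → ℕ) :
    ∑ p ∈ range S.1, F p = ∑ i ∈ keptP n S, F (S.2.1 i - 1) := by
  symm
  refine Finset.sum_bij (fun i _ => S.2.1 i - 1) ?_ ?_ ?_ ?_
  · intro i hi
    have h1 : S.2.1 i ≠ 0 := (Finset.mem_filter.1 hi).2
    have h2 := h.1 i i.2
    exact Finset.mem_range.2 (T12a1_lt _ _ h1 h2)
  · intro i hi j hj hij
    have h1 : S.2.1 i ≠ 0 := (Finset.mem_filter.1 hi).2
    have h2 : S.2.1 j ≠ 0 := (Finset.mem_filter.1 hj).2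
    have h3 : S.2.1 i = S.2.1 j := T12a1_inj _ _ h1 h2 hij
    exact Fin.ext (h.2.1 i i.2 j j.2 h3 h1)
  · intro p hp
    obtain ⟨i, hi, hpi⟩ := h.2.2 p (Finset.mem_range.1 hp)
    refine ⟨⟨i, hi⟩, Finset.mem_filter.2 ⟨Finset.mem_univ _, ?_⟩, ?_⟩
    · exact T12a1_ne _ _ hpi
    · exact T12a1_pred _ _ hpi
  · intro i hi
    rfl

theorem kept_card {n : ℕ} {S : SDT.den} (h : SDOK n S) : (keptP n S).card = S.1 := by
  have h1 := T12a1_reidx h (fun _ => 1)
  simp only [Finset.sum_const, Finset.card_range, smul_eq_mul, mul_one] at h1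
  exact h1.symm

theorem T12a1_len {a c : ℕ} {x : CooT.den} (h : CooOK a c x) :
    x.1 = ∑ p ∈ range a, rowCnt x p := by
  have h1 := Finset.card_eq_sum_card_fiberwise (s := range x.1) (t := range a) (f := x.2.1)
    (fun e he => Finset.mem_coe.2 (Finset.mem_range.2
      (h e (Finset.mem_range.1 (Finset.mem_coe.1 he))).1))
  rw [Finset.card_range] at h1
  exact h1

theorem T12a1_lenC {a c : ℕ} {x : CooT.den} (h : CooOK a c x) :
    x.1 = ∑ p ∈ range c, colCnt x p := by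
  have h1 := Finset.card_eq_sum_card_fiberwise (s := range x.1) (t := range c) (f := x.2.2.1)
    (fun e he => Finset.mem_coe.2 (Finset.mem_range.2
      (h e (Finset.mem_range.1 (Finset.mem_coe.1 he))).2))
  rw [Finset.card_range] at h1
  exact h1

section
variable {mm : ℕ → ℕ} (Φ : Lib mm)

theorem supp_filter (x : InT.den) (A0 : CooT.den) (hok : CooOK x.1.1 x.1.1 A0)
    (hsi : ∀ i j, ((range A0.1).filter fun e => A0.2.1 e = i ∧ A0.2.2.1 e = j).card ≤ 1)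
    (Q : ℕ → ℕ → Prop) [∀ i j, Decidable (Q i j)] :
    ((suppP x A0).filter fun p => Q p.1 p.2).card =
      ((range A0.1).filter fun e => Q (A0.2.1 e) (A0.2.2.1 e)).card := by
  symm
  refine Finset.card_bij (fun e he =>
    ((⟨A0.2.1 e, (hok e (Finset.mem_range.1 (Finset.mem_filter.1 he).1)).1⟩ : Fin x.1.1),
     (⟨A0.2.2.1 e, (hok e (Finset.mem_range.1 (Finset.mem_filter.1 he).1)).2⟩ : Fin x.1.1)))
    ?_ ?_ ?_
  · intro e he
    obtain ⟨h1, h2⟩ := Finset.mem_filter.1 he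
    refine Finset.mem_filter.2 ⟨Finset.mem_filter.2 ⟨Finset.mem_univ _, ?_⟩, h2⟩
    have h3 : e ∈ (range A0.1).filter fun e' => A0.2.1 e' = A0.2.1 e ∧ A0.2.2.1 e' = A0.2.2.1 e :=
      Finset.mem_filter.2 ⟨h1, rfl, rfl⟩
    exact Finset.card_ne_zero_of_mem h3
  · intro e he e' he' hee
    obtain ⟨h1, h2⟩ := Finset.mem_filter.1 he
    obtain ⟨h1', h2'⟩ := Finset.mem_filter.1 he'
    have h3 : A0.2.1 e = A0.2.1 e' := congrArg (fun p : Fin x.1.1 × Fin x.1.1 => (p.1 : ℕ)) hee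
    have h4 : A0.2.2.1 e = A0.2.2.1 e' :=
      congrArg (fun p : Fin x.1.1 × Fin x.1.1 => (p.2 : ℕ)) hee
    have h5 := hsi (A0.2.1 e) (A0.2.2.1 e)
    rw [Finset.card_le_one] at h5
    exact h5 e (Finset.mem_filter.2 ⟨h1, rfl, rfl⟩) e'
      (Finset.mem_filter.2 ⟨h1', h3.symm, h4.symm⟩)
  · intro p hp
    obtain ⟨h1, h2⟩ := Finset.mem_filter.1 hp
    have h3 : cnt x A0 p.1 p.2 ≠ 0 := (Finset.mem_filter.1 h1).2
    obtain ⟨e, he⟩ := Finset.card_pos.1 (Nat.pos_of_ne_zero h3)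
    obtain ⟨h4, h5, h6⟩ := Finset.mem_filter.1 he
    refine ⟨e, Finset.mem_filter.2 ⟨h4, ?_⟩, ?_⟩
    · rw [h5, h6]
      exact h2
    · exact Prod.ext (Fin.ext h5) (Fin.ext h6)

theorem mk_size {n : ℕ} (E : OpT.den) (S T : SDT.den) (hE : OpOK E) (hEn : E.1 = (n, n))
    (hS : SDOK n S) (hT : SDOK n T) :
    opSize (Φ.mkOp (E, (S, T))) = S.1 + T.1 + pairN E.2.2.1.1 S T +
      ∑ i ∈ keptP n S, rowCnt E.2.2.1.2 i + ∑ i ∈ keptP n T, colCnt E.2.2.2.1 i +
      (E.2.1.1 + 1) * (E.2.1.2 + 1) := by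
  obtain ⟨h1, h2, h3, -, -, h6, h7⟩ := Φ.mkOp_eq E S T n hE hEn hS hT
  set M := Φ.mkOp (E, (S, T)) with hM
  have hM1 : M.1.1 = S.1 := by rw [h2]
  have hM2 : M.1.2 = T.1 := by rw [h2]
  obtain ⟨c1, c2, c3⟩ := h1
  rw [hM1, hM2] at c1
  rw [hM1] at c2
  rw [hM2] at c3
  -- second list
  have e2 : M.2.2.1.2.1 = ∑ i ∈ keptP n S, rowCnt E.2.2.1.2 i := by
    rw [T12a1_len c2, T12a1_reidx hS]
    refine Finset.sum_congr rfl fun i hi => ?_
    have hi0 : S.2.1 i ≠ 0 := (Finset.mem_filter.1 hi).2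
    have hi1 := hS.1 i i.2
    exact (h6 (S.2.1 i - 1) (T12a1_lt _ _ hi0 hi1) i i.2 (T12a1_succ _ hi0)).1
  have e3 : M.2.2.2.1.1 = ∑ i ∈ keptP n T, colCnt E.2.2.2.1 i := by
    rw [T12a1_lenC c3, T12a1_reidx hT]
    refine Finset.sum_congr rfl fun i hi => ?_
    have hi0 : T.2.1 i ≠ 0 := (Finset.mem_filter.1 hi).2
    have hi1 := hT.1 i i.2
    exact (h7 (T.2.1 i - 1) (T12a1_lt _ _ hi0 hi1) i i.2 (T12a1_succ _ hi0)).1
  have e1 : M.2.2.1.1.1 = pairN E.2.2.1.1 S T := by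
    rw [T12a1_len c1, T12a1_reidx hS]
    have e4 : ∀ i ∈ keptP n S, rowCnt M.2.2.1.1 (S.2.1 i - 1) =
        ((range E.2.2.1.1.1).filter fun e =>
          E.2.2.1.1.2.1 e = i ∧ T.2.1 (E.2.2.1.1.2.2.1 e) ≠ 0).card := by
      intro i hi
      have hi0 : S.2.1 i ≠ 0 := (Finset.mem_filter.1 hi).2
      have hi1 := hS.1 i i.2
      exact (h6 (S.2.1 i - 1) (T12a1_lt _ _ hi0 hi1) i i.2 (T12a1_succ _ hi0)).2
    rw [Finset.sum_congr rfl e4]
    unfold pairN
    have hE1 : CooOK n n E.2.2.1.1 := by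
      have := hE.1
      rw [hEn] at this
      exact this
    rcases Nat.eq_zero_or_pos n with hn | hn
    · subst hn
      have : (range E.2.2.1.1.1) = ∅ := by
        rw [Finset.range_eq_empty_iff]
        by_contra h0
        exact absurd (hE1 0 (Nat.pos_of_ne_zero h0)).1 (Nat.not_lt_zero _)
      rw [this]
      simp
    · have : NeZero n := ⟨by omega⟩
      rw [Finset.card_eq_sum_card_fiberwise
        (s := (range E.2.2.1.1.1).filter fun e =>
          S.2.1 (E.2.2.1.1.2.1 e) ≠ 0 ∧ T.2.1 (E.2.2.1.1.2.2.1 e) ≠ 0)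
        (t := keptP n S) (f := fun e => (Fin.ofNat n (E.2.2.1.1.2.1 e) : Fin n))]
      · refine Finset.sum_congr rfl fun i hi => ?_
        congr 1
        ext e
        simp only [Finset.mem_filter, Finset.mem_range]
        have hi0 : S.2.1 i ≠ 0 := (Finset.mem_filter.1 hi).2
        constructor
        · rintro ⟨a1, a2, a3⟩
          refine ⟨⟨a1, ?_, a3⟩, ?_⟩
          · rw [a2]; exact hi0
          · apply Fin.ext
            show E.2.2.1.1.2.1 e % n = i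
            rw [a2]
            exact Nat.mod_eq_of_lt i.2
        · rintro ⟨⟨a1, a2, a3⟩, a4⟩
          refine ⟨a1, ?_, a3⟩
          have a5 := congrArg Fin.val a4
          have a6 : E.2.2.1.1.2.1 e % n = i := a5
          rwa [Nat.mod_eq_of_lt (hE1 e a1).1] at a6
      · intro e he
        obtain ⟨a1, a2, a3⟩ := Finset.mem_filter.1 (Finset.mem_coe.1 he)
        refine Finset.mem_coe.2 (Finset.mem_filter.2 ⟨Finset.mem_univ _, ?_⟩)
        show S.2.1 (E.2.2.1.1.2.1 e % n) ≠ 0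
        rw [Nat.mod_eq_of_lt (hE1 e (Finset.mem_range.1 a1)).1]
        exact a2
  unfold opSize
  rw [hM1, hM2, e1, e2, e3, h3]

end

end A55
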