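import Pool.Agent.Lib_helper78.A55T.T12Defs

/-!
# MP_a55cb8: block T12a2 (helper93)
-/

open Matrix Finset

namespace A55

/-! ## lists -/

theorem T12a2_n1 {a b : ℕ} (h1 : a ≤ b) (h2 : a ≠ 0) : a - 1 < b := by omega
theorem T12a2_n2 {a b : ℕ} (h : a - 1 = b - 1) (h1 : a ≠ 0) (h2 : b ≠ 0) : a = b := by omega
theorem T12a2_n3 {a : ℕ} (h : a ≠ 0) : a = a - 1 + 1 := by omega

theorem T12a2_row (L : CooT.den) (a c : ℕ) (h : CooOK a c L) (P : ℕ → Prop) [DecidablePred P] :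
    ((range L.1).filter fun e => P (L.2.1 e)).card =
      ∑ p ∈ (range a).filter P, rowCnt L p := by
  rw [Finset.card_eq_sum_card_fiberwise (f := L.2.1) (t := (range a).filter P)]
  · refine Finset.sum_congr rfl fun p hp => ?_
    unfold rowCnt
    rw [Finset.filter_filter]
    congr 1
    ext e
    simp only [mem_filter, mem_range] at hp ⊢
    constructor
    · rintro ⟨h1, _, h3⟩
      exact ⟨h1, h3⟩
    · rintro ⟨h1, h3⟩
      exact ⟨h1, by rw [h3]; exact hp.2, h3⟩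
  · intro e he
    have he' := Finset.mem_filter.1 he
    exact Finset.mem_coe.2 (Finset.mem_filter.2
      ⟨Finset.mem_range.2 (h e (Finset.mem_range.1 he'.1)).1, he'.2⟩)

theorem T12a2_col (L : CooT.den) (a c : ℕ) (h : CooOK a c L) (P : ℕ → Prop) [DecidablePred P] :
    ((range L.1).filter fun e => P (L.2.2.1 e)).card =
      ∑ p ∈ (range c).filter P, colCnt L p := by
  rw [Finset.card_eq_sum_card_fiberwise (f := L.2.2.1) (t := (range c).filter P)]
  · refine Finset.sum_congr rfl fun p hp => ?_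
    unfold colCnt
    rw [Finset.filter_filter]
    congr 1
    ext e
    simp only [mem_filter, mem_range] at hp ⊢
    constructor
    · rintro ⟨h1, _, h3⟩
      exact ⟨h1, h3⟩
    · rintro ⟨h1, h3⟩
      exact ⟨h1, by rw [h3]; exact hp.2, h3⟩
  · intro e he
    have he' := Finset.mem_filter.1 he
    exact Finset.mem_coe.2 (Finset.mem_filter.2
      ⟨Finset.mem_range.2 (h e (Finset.mem_range.1 he'.1)).2, he'.2⟩)

/-- the positions enumerate the kept indices -/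
theorem T12a2_kept {n : ℕ} {S : SDT.den} (hS : SDOK n S) (P : ℕ → Prop) [DecidablePred P]
    (F : ℕ → ℕ) : ∑ p ∈ (range S.1).filter P, F p =
      ∑ i ∈ (keptP n S).filter (fun i : Fin n => P (S.2.1 i - 1)), F (S.2.1 i - 1) := by
  symm
  refine Finset.sum_bij (fun i _ => S.2.1 i - 1) ?_ ?_ ?_ ?_
  · intro i hi
    simp only [keptP, mem_filter, mem_univ, true_and] at hi
    simp only [mem_filter, mem_range]
    exact ⟨T12a2_n1 (hS.1 i i.2) hi.1, hi.2⟩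
  · intro i hi j hj hij
    simp only [keptP, mem_filter, mem_univ, true_and] at hi hj
    exact Fin.ext (hS.2.1 i i.2 j j.2 (T12a2_n2 hij hi.1 hj.1) hi.1)
  · intro p hp
    simp only [mem_filter, mem_range] at hp
    obtain ⟨i, hi, hip⟩ := hS.2.2 p hp.1
    refine ⟨⟨i, hi⟩, ?_, ?_⟩
    · simp only [keptP, mem_filter, mem_univ, true_and]
      rw [hip]
      exact ⟨Nat.succ_ne_zero p, hp.2⟩
    · show S.2.1 i - 1 = p
      rw [hip]
      rfl
  · intro i _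
    rfl

/-- a sum over kept indices of row counts -/
theorem T12a2_fib {n : ℕ} (N : ℕ) (r : ℕ → ℕ) (hr : ∀ e < N, r e < n) (K : Finset (Fin n))
    (Q : ℕ → Prop) [DecidablePred Q] (R : ℕ → Prop) [DecidablePred R]
    (hK : ∀ i : Fin n, i ∈ K ↔ R i) :
    ∑ i ∈ K, ((range N).filter fun e => r e = (i : ℕ) ∧ Q e).card =
      ((range N).filter fun e => R (r e) ∧ Q e).card := by
  rw [Finset.card_eq_sum_card_fiberwise (f := r) (t := K.image fun i : Fin n => (i : ℕ))]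
  · rw [Finset.sum_image (fun i _ j _ h => Fin.ext h)]
    refine Finset.sum_congr rfl fun i hi => ?_
    rw [Finset.filter_filter]
    congr 1
    ext e
    simp only [mem_filter, mem_range]
    constructor
    · rintro ⟨h1, h2, h3⟩
      exact ⟨h1, ⟨by rw [h2]; exact (hK i).1 hi, h3⟩, h2⟩
    · rintro ⟨h1, ⟨_, h3⟩, h4⟩
      exact ⟨h1, h4, h3⟩
  · intro e he
    have he' := Finset.mem_filter.1 he
    have h1 : r e < n := hr e (Finset.mem_range.1 he'.1)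
    exact Finset.mem_coe.2 (Finset.mem_image.2 ⟨⟨r e, h1⟩, (hK _).2 he'.2.1, rfl⟩)

section
variable {mm : ℕ → ℕ} (Φ : Lib mm)

theorem mk_rest {n : ℕ} (E : OpT.den) (S T : SDT.den) (hE : OpOK E) (hEn : E.1 = (n, n))
    (hS : SDOK n S) (hT : SDOK n T) :
    opRest (Φ.mkOp (E, (S, T))) S.2.2.2 T.2.2.2 ≤ S.1 + T.1 + pairR E.2.2.1.1 S T +
      pairC E.2.2.1.1 S T +
      ∑ i ∈ (keptP n S).filter (fun i : Fin n => S.2.2.2 (S.2.1 i - 1) = 0), rowCnt E.2.2.1.2 i +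
      ∑ i ∈ (keptP n T).filter (fun i : Fin n => T.2.2.2 (T.2.1 i - 1) = 0), colCnt E.2.2.2.1 i := by
  obtain ⟨hok, h1, h2, h3, h4, h5, h6⟩ := Φ.mkOp_eq E S T n hE hEn hS hT
  obtain ⟨M, hM⟩ : ∃ M, M = Φ.mkOp (E, (S, T)) := ⟨_, rfl⟩
  rw [← hM] at hok h1 h2 h3 h4 h5 h6 ⊢
  obtain ⟨ok1, ok2, ok3⟩ := hok
  have hR : M.1.1 = S.1 := by rw [h1]
  have hC : M.1.2 = T.1 := by rw [h1]
  rw [hR, hC] at ok1
  rw [hR] at ok2
  rw [hC] at ok3
  have hE1 : ∀ e < E.2.2.1.1.1, E.2.2.1.1.2.1 e < n ∧ E.2.2.1.1.2.2.1 e < n := by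
    intro e he
    have h := hE.1 e he
    rw [hEn] at h
    exact h
  -- positions
  have hpos : ∀ {W : SDT.den}, SDOK n W → ∀ i : Fin n, W.2.1 i ≠ 0 →
      W.2.1 i - 1 < W.1 ∧ W.2.1 i = W.2.1 i - 1 + 1 := by
    intro W hW i hi
    exact ⟨T12a2_n1 (hW.1 i i.2) hi, T12a2_n3 hi⟩
  -- list 1, light rows
  have a1 : ((range M.2.2.1.1.1).filter fun e => S.2.2.2 (M.2.2.1.1.2.1 e) = 0).card =
      pairR E.2.2.1.1 S T := by
    rw [T12a2_row M.2.2.1.1 S.1 T.1 ok1 (fun p => S.2.2.2 p = 0), T12a2_kept hS]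
    have e1 : ∀ i ∈ (keptP n S).filter (fun i : Fin n => S.2.2.2 (S.2.1 i - 1) = 0),
        rowCnt M.2.2.1.1 (S.2.1 i - 1) = ((range E.2.2.1.1.1).filter fun e =>
          E.2.2.1.1.2.1 e = (i : ℕ) ∧ T.2.1 (E.2.2.1.1.2.2.1 e) ≠ 0).card := by
      intro i hi
      simp only [keptP, mem_filter, mem_univ, true_and] at hi
      obtain ⟨p1, p2⟩ := hpos hS i hi.1
      exact (h5 _ p1 i i.2 p2).2
    rw [Finset.sum_congr rfl e1, T12a2_fib E.2.2.1.1.1 E.2.2.1.1.2.1 (fun e he => (hE1 e he).1) _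
      (fun e => T.2.1 (E.2.2.1.1.2.2.1 e) ≠ 0)
      (fun i => S.2.1 i ≠ 0 ∧ S.2.2.2 (S.2.1 i - 1) = 0) (by
        intro i
        simp only [keptP, mem_filter, mem_univ, true_and])]
    unfold pairR
    congr 1
    ext e
    simp only [mem_filter, mem_range]
    tauto
  -- list 1, light columns
  have a2 : ((range M.2.2.1.1.1).filter fun e => T.2.2.2 (M.2.2.1.1.2.2.1 e) = 0).card =
      pairC E.2.2.1.1 S T := by
    rw [T12a2_col M.2.2.1.1 S.1 T.1 ok1 (fun p => T.2.2.2 p = 0), T12a2_kept hT]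
    have e1 : ∀ i ∈ (keptP n T).filter (fun i : Fin n => T.2.2.2 (T.2.1 i - 1) = 0),
        colCnt M.2.2.1.1 (T.2.1 i - 1) = ((range E.2.2.1.1.1).filter fun e =>
          E.2.2.1.1.2.2.1 e = (i : ℕ) ∧ S.2.1 (E.2.2.1.1.2.1 e) ≠ 0).card := by
      intro i hi
      simp only [keptP, mem_filter, mem_univ, true_and] at hi
      obtain ⟨p1, p2⟩ := hpos hT i hi.1
      exact (h6 _ p1 i i.2 p2).2
    rw [Finset.sum_congr rfl e1, T12a2_fib E.2.2.1.1.1 E.2.2.1.1.2.2.1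
      (fun e he => (hE1 e he).2) _ (fun e => S.2.1 (E.2.2.1.1.2.1 e) ≠ 0)
      (fun i => T.2.1 i ≠ 0 ∧ T.2.2.2 (T.2.1 i - 1) = 0) (by
        intro i
        simp only [keptP, mem_filter, mem_univ, true_and])]
    unfold pairC
    congr 1
    ext e
    simp only [mem_filter, mem_range]
    tauto
  -- lists 2 and 3
  have a3 : ((range M.2.2.1.2.1).filter fun e => S.2.2.2 (M.2.2.1.2.2.1 e) = 0).card =
      ∑ i ∈ (keptP n S).filter (fun i : Fin n => S.2.2.2 (S.2.1 i - 1) = 0),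
        rowCnt E.2.2.1.2 i := by
    rw [T12a2_row M.2.2.1.2 S.1 M.2.1.1 ok2 (fun p => S.2.2.2 p = 0), T12a2_kept hS]
    refine Finset.sum_congr rfl fun i hi => ?_
    simp only [keptP, mem_filter, mem_univ, true_and] at hi
    obtain ⟨p1, p2⟩ := hpos hS i hi.1
    exact (h5 _ p1 i i.2 p2).1
  have a4 : ((range M.2.2.2.1.1).filter fun e => T.2.2.2 (M.2.2.2.1.2.2.1 e) = 0).card =
      ∑ i ∈ (keptP n T).filter (fun i : Fin n => T.2.2.2 (T.2.1 i - 1) = 0),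
        colCnt E.2.2.2.1 i := by
    rw [T12a2_col M.2.2.2.1 M.2.1.2 T.1 ok3 (fun p => T.2.2.2 p = 0), T12a2_kept hT]
    refine Finset.sum_congr rfl fun i hi => ?_
    simp only [keptP, mem_filter, mem_univ, true_and] at hi
    obtain ⟨p1, p2⟩ := hpos hT i hi.1
    exact (h6 _ p1 i i.2 p2).1
  have a5 : ((range M.2.2.1.1.1).filter fun e => S.2.2.2 (M.2.2.1.1.2.1 e) = 0 ∨
      T.2.2.2 (M.2.2.1.1.2.2.1 e) = 0).card ≤ pairR E.2.2.1.1 S T + pairC E.2.2.1.1 S T := by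
    rw [Finset.filter_or, ← a1, ← a2]
    exact Finset.card_union_le _ _
  unfold opRest opR opC
  rw [hR, hC, a3, a4]
  omega

theorem mk_heavy {n : ℕ} (E : OpT.den) (S T : SDT.den) (hE : OpOK E) (hEn : E.1 = (n, n))
    (hS : SDOK n S) (hT : SDOK n T) (H : ℕ) (h1 : E.2.1.1 ≤ H) (h2 : E.2.1.2 ≤ H)
    (h3 : ((keptP n S).filter (fun i : Fin n => S.2.2.2 (S.2.1 i - 1) ≠ 0)).card ≤ H)
    (h4 : ((keptP n T).filter (fun i : Fin n => T.2.2.2 (T.2.1 i - 1) ≠ 0)).card ≤ H) :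
    opHeavy (Φ.mkOp (E, (S, T))) S.2.2.2 T.2.2.2 H := by
  obtain ⟨_, k1, k2, _⟩ := Φ.mkOp_eq E S T n hE hEn hS hT
  have hR : opR (Φ.mkOp (E, (S, T))) = S.1 := by unfold opR; rw [k1]
  have hC : opC (Φ.mkOp (E, (S, T))) = T.1 := by unfold opC; rw [k1]
  have e1 := T12a2_kept hS (fun p => S.2.2.2 p ≠ 0) (fun _ => 1)
  have e2 := T12a2_kept hT (fun p => T.2.2.2 p ≠ 0) (fun _ => 1)
  rw [Finset.sum_const, Finset.sum_const, smul_eq_mul, smul_eq_mul, mul_one, mul_one] at e1 e2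
  unfold opHeavy
  rw [hR, hC, k2]
  exact ⟨e1.le.trans h3, e2.le.trans h4, h1, h2⟩

end

end A55
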