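import Pool.Agent.Lib_helper78.A55T.T12Defs

/-!
# MP_a55cb8, block T12h: numbers (helper47)
-/

open Matrix Finset

namespace A55

theorem T12h_log {m : ℕ} (hm : m ≠ 0) : 2 ^ (Nat.log2 m + 1) ≤ 2 * m := by
  have h := Nat.log2_self_le hm
  rw [pow_succ]
  omega

theorem T12h_pl {c : Cst} (hc : Big c) (x : InT.den) : 10 ^ 6 ≤ pl c x :=
  hc.c1.trans (Nat.le_add_left _ _)

theorem T12h_m1 {c : Cst} (hc : Big c) (x : InT.den) :
    pm1 c x ≤ 32 * (x.1.2 + 1) * pl c x ^ 7 := by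
  have hl : 0 < pl c x := lt_of_lt_of_le (by norm_num) (T12h_pl hc x)
  have h1 : 2 ^ pb1 c x ≤ 2 * (16 * (x.1.2 + 1) * pl c x ^ 6) := T12h_log (by positivity)
  calc pm1 c x = pl c x * 2 ^ pb1 c x := rfl
    _ ≤ pl c x * (2 * (16 * (x.1.2 + 1) * pl c x ^ 6)) := Nat.mul_le_mul_left _ h1
    _ = 32 * (x.1.2 + 1) * pl c x ^ 7 := by ring

theorem T12h_m2 {c : Cst} (hc : Big c) (x : InT.den) :
    pm2 c x ≤ 1056 * (x.1.2 + 1) * pl c x ^ 14 := by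
  have hl : 0 < pl c x := lt_of_lt_of_le (by norm_num) (T12h_pl hc x)
  have h1 : 2 ^ pb2 c x ≤ 2 * (16 * (pm1 c x + 1) * pl c x ^ 6) := T12h_log (by positivity)
  have h2 : pm1 c x + 1 ≤ 33 * (x.1.2 + 1) * pl c x ^ 7 := by
    have h3 := T12h_m1 hc x
    have h4 : 1 ≤ (x.1.2 + 1) * pl c x ^ 7 := Nat.one_le_iff_ne_zero.2 (by positivity)
    calc pm1 c x + 1 ≤ 32 * (x.1.2 + 1) * pl c x ^ 7 + (x.1.2 + 1) * pl c x ^ 7 :=
          add_le_add h3 h4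
      _ = 33 * (x.1.2 + 1) * pl c x ^ 7 := by ring
  calc pm2 c x = pl c x * 2 ^ pb2 c x := rfl
    _ ≤ pl c x * (2 * (16 * (pm1 c x + 1) * pl c x ^ 6)) := Nat.mul_le_mul_left _ h1
    _ = 32 * pl c x ^ 7 * (pm1 c x + 1) := by ring
    _ ≤ 32 * pl c x ^ 7 * (33 * (x.1.2 + 1) * pl c x ^ 7) := Nat.mul_le_mul_left _ h2
    _ = 1056 * (x.1.2 + 1) * pl c x ^ 14 := by ring

theorem par_m (c : Cst) (hc : Big c) (x : InT.den) (hk : 1 ≤ x.1.2) :
    pm1 c x ≤ pl c x ^ 20 * x.1.2 ∧ pm2 c x ≤ pl c x ^ 20 * x.1.2 ∧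
      pkk c x ≤ pl c x ^ 20 * x.1.2 := by
  have hp := T12h_pl hc x
  have hl : 0 < pl c x := lt_of_lt_of_le (by norm_num) hp
  have h5 : x.1.2 + 1 ≤ 2 * x.1.2 := by
    rw [two_mul]
    exact Nat.add_le_add_left hk _
  have hm1 : pm1 c x ≤ pl c x ^ 8 * x.1.2 := by
    refine (T12h_m1 hc x).trans ?_
    calc 32 * (x.1.2 + 1) * pl c x ^ 7 ≤ 32 * (2 * x.1.2) * pl c x ^ 7 := by gcongr
      _ = 64 * (pl c x ^ 7 * x.1.2) := by ring
      _ ≤ pl c x * (pl c x ^ 7 * x.1.2) := by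
          gcongr
          exact le_trans (by norm_num) hp
      _ = pl c x ^ 8 * x.1.2 := by ring
  have hm2 : pm2 c x ≤ pl c x ^ 15 * x.1.2 := by
    refine (T12h_m2 hc x).trans ?_
    calc 1056 * (x.1.2 + 1) * pl c x ^ 14 ≤ 1056 * (2 * x.1.2) * pl c x ^ 14 := by gcongr
      _ = 2112 * (pl c x ^ 14 * x.1.2) := by ring
      _ ≤ pl c x * (pl c x ^ 14 * x.1.2) := by
          gcongr
          exact le_trans (by norm_num) hp
      _ = pl c x ^ 15 * x.1.2 := by ring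
  have e8 : pl c x ^ 8 ≤ pl c x ^ 20 := Nat.pow_le_pow_right hl (by norm_num)
  have e15 : pl c x ^ 15 ≤ pl c x ^ 20 := Nat.pow_le_pow_right hl (by norm_num)
  have e9 : pl c x ^ 9 ≤ pl c x ^ 20 := Nat.pow_le_pow_right hl (by norm_num)
  refine ⟨hm1.trans (Nat.mul_le_mul_right _ e8), hm2.trans (Nat.mul_le_mul_right _ e15), ?_⟩
  calc pkk c x = x.1.2 + pm1 c x := rfl
    _ ≤ x.1.2 + pl c x ^ 8 * x.1.2 := Nat.add_le_add_left hm1 _
    _ ≤ pl c x ^ 8 * x.1.2 + pl c x ^ 8 * x.1.2 := by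
        gcongr
        exact Nat.le_mul_of_pos_left _ (by positivity)
    _ = 2 * (pl c x ^ 8 * x.1.2) := by ring
    _ ≤ pl c x * (pl c x ^ 8 * x.1.2) := by
        gcongr
        exact le_trans (by norm_num) hp
    _ = pl c x ^ 9 * x.1.2 := by ring
    _ ≤ pl c x ^ 20 * x.1.2 := Nat.mul_le_mul_right _ e9

theorem T12h_cnt (P : ℕ → Prop) [DecidablePred P] (hmono : ∀ a b, a ≤ b → P b → P a) (l : ℕ)
    (h : 1 ≤ ∑ b ∈ range l, if P b then 1 else 0) :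
    P ((∑ b ∈ range l, if P b then 1 else 0) - 1) := by
  by_contra hn
  have h1 : (∑ b ∈ range l, if P b then 1 else 0) = ((range l).filter P).card := by
    rw [Finset.card_filter]
  have h2 : (range l).filter P ⊆ range ((∑ b ∈ range l, if P b then 1 else 0) - 1) := by
    intro b hb
    rw [Finset.mem_filter] at hb
    rw [Finset.mem_range]
    by_contra h3
    exact hn (hmono _ _ (not_lt.1 h3) hb.2)
  have h3 := Finset.card_le_card h2
  rw [Finset.card_range, ← h1] at h3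
  omega

/-- the threshold is well below `l` -/
theorem T12h_ph (c : Cst) (hc : Big c) (x : InT.den) (h1 : 1 ≤ x.2.2.1) (h2 : 1 ≤ x.1.2)
    (h5 : x.2.1 ≤ x.1.1 ^ 2) (hph : 0 < ph c x) :
    ph c x + 60 * (Nat.log2 (pl c x) + 1) + 1 ≤ pl c x := by
  have hp := T12h_pl hc x
  have hbig := hc.big (pl c x) (Nat.le_add_left _ _)
  obtain ⟨lam, hlam⟩ : ∃ lam, lam = Nat.log2 (pl c x) := ⟨_, rfl⟩
  rw [← hlam] at hbig ⊢
  have htau : ptau c x = c.ct * lam := by rw [hlam]; rfl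
  have hphd : ph c x = ptau c x * pbb c x - c.ch * lam := by rw [hlam]; rfl
  have hb1 : 1 ≤ pbb c x := by
    by_contra h
    have h0 : pbb c x = 0 := by omega
    rw [hphd, h0, mul_zero, Nat.zero_sub] at hph
    exact lt_irrefl _ hph
  -- the last index with the property
  have hP : pK c x ^ (3 * (pbb c x - 1)) * (x.2.2.1 * x.1.2) ^ 2 < x.2.1 ^ 2 := by
    have h3 := T12h_cnt (fun b => pK c x ^ (3 * b) * (x.2.2.1 * x.1.2) ^ 2 < x.2.1 ^ 2) ?_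
      (pl c x) hb1
    · exact h3
    · intro a b hab hb
      refine lt_of_le_of_lt ?_ hb
      apply Nat.mul_le_mul_right
      apply Nat.pow_le_pow_right
      · exact pow_pos (by norm_num) _
      · omega
  have hkk : 1 ≤ (x.2.2.1 * x.1.2) ^ 2 :=
    Nat.one_le_iff_ne_zero.2 (pow_ne_zero _ (Nat.mul_ne_zero (Nat.one_le_iff_ne_zero.1 h1)
      (Nat.one_le_iff_ne_zero.1 h2)))
  have hK : pK c x ^ (3 * (pbb c x - 1)) < x.2.1 ^ 2 :=
    lt_of_le_of_lt (Nat.le_mul_of_pos_right _ hkk) hP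
  have hN : x.2.1 ^ 2 ≤ (2 ^ (Nat.log2 x.1.1 + 1)) ^ 4 := by
    calc x.2.1 ^ 2 ≤ (x.1.1 ^ 2) ^ 2 := Nat.pow_le_pow_left h5 2
      _ = x.1.1 ^ 4 := by ring
      _ ≤ (2 ^ (Nat.log2 x.1.1 + 1)) ^ 4 := Nat.pow_le_pow_left Nat.lt_log2_self.le 4
  have hlt : 2 ^ (6 * (ptau c x * (pbb c x - 1))) < 2 ^ (4 * (Nat.log2 x.1.1 + 1)) := by
    calc 2 ^ (6 * (ptau c x * (pbb c x - 1))) = pK c x ^ (3 * (pbb c x - 1)) := by
          unfold pK
          rw [show (4 : ℕ) = 2 ^ 2 by norm_num, ← pow_mul, ← pow_mul]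
          congr 1
          ring
      _ < x.2.1 ^ 2 := hK
      _ ≤ (2 ^ (Nat.log2 x.1.1 + 1)) ^ 4 := hN
      _ = 2 ^ (4 * (Nat.log2 x.1.1 + 1)) := by rw [← pow_mul, mul_comm 4]
  have hexp : 6 * (ptau c x * (pbb c x - 1)) < 4 * (Nat.log2 x.1.1 + 1) :=
    (Nat.pow_lt_pow_iff_right (by norm_num)).1 hlt
  have hsplit : ptau c x * pbb c x = ptau c x * (pbb c x - 1) + ptau c x := by
    obtain ⟨b, hb⟩ : ∃ b, pbb c x = b + 1 := ⟨pbb c x - 1, by omega⟩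
    rw [hb, Nat.add_sub_cancel]
    ring
  have hle : ph c x ≤ ptau c x * pbb c x := by rw [hphd]; exact Nat.sub_le _ _
  have hpl : pl c x = Nat.log2 x.1.1 + c.c1 := rfl
  have hct : c.ct * lam ≤ c.ct * (lam + 1) := Nat.mul_le_mul_left _ (Nat.le_succ _)
  have hb2 : 1000 * (c.ct * (lam + 1)) + 1000000 * (lam + 1) ≤ pl c x := by
    refine le_trans ?_ hbig
    have : 1000 * (c.ct + c.cB + c.ch + 1000) * (lam + 1) =
        1000 * (c.ct * (lam + 1)) + 1000000 * (lam + 1) + 1000 * (c.cB + c.ch) * (lam + 1) := by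
      ring
    rw [this]
    exact Nat.le_add_right _ _
  rw [htau] at hexp hsplit hle
  have hlogn : Nat.log2 x.1.1 ≤ pl c x := by rw [hpl]; exact Nat.le_add_right _ _
  generalize hA : c.ct * lam * (pbb c x - 1) = A at hexp hsplit
  generalize hB : c.ct * lam * pbb c x = B at hsplit hle
  generalize hC : c.ct * (lam + 1) = C at hct hb2
  omega

/-- the threshold of the heavy coordinates -/
theorem heavy_num (c : Cst) (hc : Big c) (x : InT.den) (h1 : 1 ≤ x.2.2.1) (h2 : 1 ≤ x.1.2)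
    (h5 : x.2.1 ≤ x.1.1 ^ 2) (hph : 0 < ph c x) (sg lam : ℝ) (hsg : 0 < sg)
    (hlam : (pK c x : ℝ) ^ pbb c x * sg ≤ lam) :
    (pl c x : ℝ) ^ 120 * (min 1 (sg / lam) + (1 / 4) ^ pl c x) ≤ (1 / 4) ^ ph c x := by
  have hp := T12h_pl hc x
  have hkey := T12h_ph c hc x h1 h2 h5 hph
  obtain ⟨Λ, hΛ⟩ : ∃ Λ, Λ = Nat.log2 (pl c x) := ⟨_, rfl⟩
  rw [← hΛ] at hkey
  obtain ⟨L, hL⟩ : ∃ L, L = pl c x := ⟨_, rfl⟩
  have hphd : ph c x = ptau c x * pbb c x - c.ch * Λ := by rw [hΛ]; rfl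
  have hsum : ph c x + c.ch * Λ = ptau c x * pbb c x := by omega
  have hLΛ : L < 2 ^ (Λ + 1) := by rw [hL, hΛ]; exact Nat.lt_log2_self
  rw [← hL] at hkey hp ⊢
  have hΛ1 : 1 ≤ Λ := by
    by_contra h
    have h0 : Λ = 0 := by omega
    rw [h0] at hLΛ
    norm_num at hLΛ
    omega
  have hL4 : L ≤ 4 ^ Λ := by
    calc L ≤ 2 ^ (Λ + 1) := hLΛ.le
      _ ≤ 2 ^ (2 * Λ) := Nat.pow_le_pow_right (by norm_num) (by omega)
      _ = 4 ^ Λ := by rw [pow_mul]; norm_num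
  have hLpos : 0 < L := by omega
  -- part A
  have hA0 : 2 * L ^ 120 ≤ 4 ^ (c.ch * Λ) := by
    calc 2 * L ^ 120 ≤ L * L ^ 120 := Nat.mul_le_mul_right _ (by omega)
      _ = L ^ 121 := by ring
      _ ≤ L ^ c.ch := Nat.pow_le_pow_right hLpos (le_trans (by norm_num) hc.ch)
      _ ≤ (4 ^ Λ) ^ c.ch := Nat.pow_le_pow_left hL4 _
      _ = 4 ^ (c.ch * Λ) := by rw [← pow_mul, mul_comm]
  have hA1 : (2 : ℝ) * (L : ℝ) ^ 120 ≤ 4 ^ (c.ch * Λ) := by exact_mod_cast hA0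
  have hKb : (pK c x : ℝ) ^ pbb c x = 4 ^ (ptau c x * pbb c x) := by
    have : (pK c x : ℝ) = 4 ^ ptau c x := by
      unfold pK
      push_cast
      rfl
    rw [this, ← pow_mul]
  rw [hKb] at hlam
  have hlam0 : 0 < lam := lt_of_lt_of_le (by positivity) hlam
  have hmin : min 1 (sg / lam) ≤ 1 / 4 ^ (ptau c x * pbb c x) := by
    refine (min_le_right _ _).trans ?_
    rw [div_le_div_iff₀ hlam0 (by positivity), one_mul, mul_comm]
    exact hlam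
  have hA : (L : ℝ) ^ 120 * min 1 (sg / lam) ≤ 1 / 2 * (1 / 4) ^ ph c x := by
    calc (L : ℝ) ^ 120 * min 1 (sg / lam) ≤ (L : ℝ) ^ 120 * (1 / 4 ^ (ptau c x * pbb c x)) := by
          gcongr
      _ = (2 * (L : ℝ) ^ 120) * (1 / 2) * (1 / 4 ^ (ph c x + c.ch * Λ)) := by rw [hsum]; ring
      _ ≤ 4 ^ (c.ch * Λ) * (1 / 2) * (1 / 4 ^ (ph c x + c.ch * Λ)) := by gcongr
      _ = 1 / 2 * (1 / 4) ^ ph c x := by
          rw [pow_add, _root_.one_div_pow]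
          field_simp
  -- part B
  have hB0 : 2 * L ^ 120 * 4 ^ ph c x ≤ 4 ^ L := by
    calc 2 * L ^ 120 * 4 ^ ph c x ≤ 4 * (2 ^ (Λ + 1)) ^ 120 * 4 ^ ph c x := by
          gcongr
          norm_num
      _ = 4 ^ (ph c x + 60 * (Λ + 1) + 1) := by
          rw [← pow_mul, show (Λ + 1) * 120 = 2 * (60 * (Λ + 1)) by ring, pow_mul 2 2,
            show (2 : ℕ) ^ 2 = 4 by norm_num, pow_add, pow_add, pow_one]
          ring
      _ ≤ 4 ^ L := Nat.pow_le_pow_right (by norm_num) hkey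
  have hB1 : (2 : ℝ) * (L : ℝ) ^ 120 * 4 ^ ph c x ≤ 4 ^ L := by exact_mod_cast hB0
  have hB : (L : ℝ) ^ 120 * (1 / 4) ^ L ≤ 1 / 2 * (1 / 4) ^ ph c x := by
    rw [_root_.one_div_pow, _root_.one_div_pow, mul_one_div, mul_one_div, div_le_div_iff₀ (by positivity)
      (by positivity)]
    linarith
  calc (L : ℝ) ^ 120 * (min 1 (sg / lam) + (1 / 4) ^ L)
      = (L : ℝ) ^ 120 * min 1 (sg / lam) + (L : ℝ) ^ 120 * (1 / 4) ^ L := by ring
    _ ≤ 1 / 2 * (1 / 4) ^ ph c x + 1 / 2 * (1 / 4) ^ ph c x := add_le_add hA hB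
    _ = (1 / 4) ^ ph c x := by ring

end A55
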