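import Pool.Agent.Lib_helper78.A55T.F12b
import Pool.Agent.Lib_helper78.A55.LI

/-!
# MP_a55cb8, block T12: step 1 (helper78)
-/

open Matrix Finset

namespace A55

noncomputable section

theorem T12_pl {c : Cst} (hc : Big c) (x : InT.den) : 1000 ≤ pl c x := by
  have h1 : 10 ^ 6 ≤ c.c1 := hc.c1
  have h2 : c.c1 ≤ pl c x := Nat.le_add_left _ _
  omega

theorem T12_n {c : Cst} (hc : Big c) (x : InT.den) : x.1.1 ≤ 2 ^ pl c x := by
  have h1 : 10 ^ 6 ≤ c.c1 := hc.c1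
  have h2 : x.1.1 < 2 ^ (Nat.log2 x.1.1 + 1) := Nat.lt_log2_self
  refine h2.le.trans (Nat.pow_le_pow_right (by norm_num) ?_)
  unfold pl
  omega

section
variable {c : Cst} {x : InT.den} {A0 : CooT.den} {g : GT.den}

theorem T12_Kpos : (0 : ℝ) < pK c x := by
  unfold pK
  exact_mod_cast Nat.pos_of_ne_zero (by positivity)

theorem T12_K1 : (1 : ℝ) ≤ pK c x := by
  have h : 1 ≤ pK c x := by
    unfold pK
    exact Nat.one_le_pow _ _ (by norm_num)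
  exact_mod_cast h

theorem T12_lam_pos (h : 0 < gLam g 0) (i : ℕ) : 0 < lamM c x g i := by
  unfold lamM
  have := T12_Kpos (c := c) (x := x)
  positivity

theorem T12_lam_succ (i : ℕ) : lamM c x g (i + 1) * pK c x = lamM c x g i := by
  unfold lamM
  have := T12_Kpos (c := c) (x := x)
  rw [pow_succ]
  field_simp

theorem T12_lam_anti (h : 0 < gLam g 0) (i : ℕ) : lamM c x g (i + 1) ≤ lamM c x g i := by
  have h1 := T12_lam_pos (c := c) (x := x) h (i + 1)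
  have h2 := T12_lam_succ (c := c) (x := x) (g := g) i
  have h3 := T12_K1 (c := c) (x := x)
  nlinarith

theorem T12_cnt (hsi : ∀ i j, ((range A0.1).filter fun e => A0.2.1 e = i ∧ A0.2.2.1 e = j).card ≤ 1)
    (p q : Fin x.1.1) : (cnt x A0 p q : ℝ) = if (p, q) ∈ suppP x A0 then 1 else 0 := by
  have h1 : cnt x A0 p q ≤ 1 := hsi p q
  unfold suppP
  simp only [Finset.mem_filter, Finset.mem_univ, true_and]
  by_cases h2 : cnt x A0 p q = 0
  · simp [h2]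
  · have h3 : cnt x A0 p q = 1 := by omega
    simp [h3]

/-- sums over pairs -/
theorem T12_pairs
    (hsi : ∀ i j, ((range A0.1).filter fun e => A0.2.1 e = i ∧ A0.2.2.1 e = j).card ≤ 1)
    (s : Fin x.1.1 → ℝ) (F : Fin x.1.1 → ℝ) :
    ∑ p, (if s p = 0 then (0 : ℝ) else ∑ q, (cnt x A0 p q : ℝ) * F q) =
      ∑ p ∈ (suppP x A0).filter (fun p => s p.1 ≠ 0), F p.2 := by
  have h1 : ∑ p ∈ (suppP x A0).filter (fun p => s p.1 ≠ 0), F p.2 =
      ∑ p : Fin x.1.1 × Fin x.1.1, (if s p.1 = 0 then (0 : ℝ) else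
        (if p ∈ suppP x A0 then 1 else 0) * F p.2) := by
    rw [Finset.sum_filter, ← Finset.sum_filter_add_sum_filter_not univ (fun p => p ∈ suppP x A0)]
    have h2 : ∑ p ∈ univ.filter (fun p => ¬ p ∈ suppP x A0), (if s p.1 = 0 then (0 : ℝ) else
        (if p ∈ suppP x A0 then 1 else 0) * F p.2) = 0 := by
      refine Finset.sum_eq_zero fun p hp => ?_
      have h3 := (Finset.mem_filter.1 hp).2
      rw [if_neg h3, zero_mul, ite_self]
    rw [h2, add_zero]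
    have h3 : univ.filter (fun p => p ∈ suppP x A0) = suppP x A0 := by
      ext p; simp
    rw [h3]
    refine Finset.sum_congr rfl fun p hp => ?_
    rw [if_pos hp, one_mul]
    by_cases h4 : s p.1 = 0 <;> simp [h4]
  rw [h1, Fintype.sum_prod_type]
  refine Finset.sum_congr rfl fun p _ => ?_
  by_cases h4 : s p = 0
  · simp [h4]
  · simp only [h4, if_false]
    refine Finset.sum_congr rfl fun q _ => ?_
    rw [T12_cnt hsi]

theorem T12_pB (l : ℕ) (A : Matrix (Fin x.1.1) (Fin x.1.1) ℝ) (lam : ℝ) (q : Fin x.1.1) :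
    pB l A lam q = min 1 (8 * (l : ℝ) ^ 118 * rho A lam q + 5 * (l : ℝ) ^ 18 * (1 / 4) ^ l) := by
  unfold pB pb
  congr 1
  push_cast
  ring

theorem T12_card (hok : CooOK x.1.1 x.1.1 A0)
    (hsi : ∀ i j, ((range A0.1).filter fun e => A0.2.1 e = i ∧ A0.2.2.1 e = j).card ≤ 1) :
    (suppP x A0).card = A0.1 := by
  have h := supp_filter x A0 hok hsi (fun _ _ => True)
  simpa using h

/-- the last clause of `NextOK` is `NextL` -/
theorem T12_next (hok : CooOK x.1.1 x.1.1 A0) (hN : A0.1 = x.2.1)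
    (hsi : ∀ i j, ((range A0.1).filter fun e => A0.2.1 e = i ∧ A0.2.2.1 e = j).card ≤ 1)
    (sg lam : ℝ) (s : Fin x.1.1 → ℝ) :
    NextL (pl c x) 20 x.1.2 sg lam (En x g) (suppP x A0) s ↔
      ∑ p, (if s p = 0 then (0 : ℝ) else ∑ q, (cnt x A0 p q : ℝ) *
      min 1 (8 * (pl c x : ℝ) ^ 118 * rho (En x g)ᵀ lam q +
        5 * (pl c x : ℝ) ^ 18 * (1 / 4) ^ pl c x)) ≤
    (pl c x : ℝ) ^ 285 * ((x.1.2 : ℝ) ^ 2 + eta sg lam * x.2.1) := by
  rw [T12_pairs hsi, ← hN, ← T12_card hok hsi]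
  unfold NextL
  have e1 : ∀ q, pB (pl c x) (En x g)ᵀ lam q = min 1 (8 * (pl c x : ℝ) ^ 118 *
      rho (En x g)ᵀ lam q + 5 * (pl c x : ℝ) ^ 18 * (1 / 4) ^ pl c x) :=
    fun q => T12_pB _ _ _ q
  simp only [e1, show eta sg lam = etaL sg lam from rfl]

end

/-! ## the step -/

section
variable {mm : ℕ → ℕ} (Φ : Lib mm) (c : Cst) (x : InT.den) (A0 : CooT.den) (g : GT.den)
  (A : Matrix (Fin x.1.1) (Fin x.1.1) ℝ) (xs : Fin x.1.1 → ℝ) (sg sn : ℝ) (cs : ℕ)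

/-- the new state -/
theorem T12_st1 (j : ℕ) (st : StT.den) (w : ℕ → ℕ) (h : st.1.1 = 0) :
    ∀ e f T S, e = eOf Φ g j st.2.2.2 w → f = fOf Φ g j st.2.2.2 w →
      T = tOf Φ g j st.2.2.2 (st.2.1.1 j) f w → S = sOf Φ g j st.2.2.2 T e w →
    st1 Φ g j st w = (st.1, ((Function.update st.2.1.1 (j + 1) S,
      Function.update st.2.1.2 (j + 1) T),
      ((Function.update st.2.2.1.1 (j + 1) (Φ.mkOp (gE g, (S, T))),
        Function.update st.2.2.1.2 (j + 1) (Φ.mkOp (gE g, (st.2.1.1 j, T)))), st.2.2.2))) := by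
  intro e f T S he hf hT hS
  unfold st1
  rw [if_pos h]
  subst he hf
  subst hT
  subst hS
  rfl

/-- the new samples are in order -/
theorem T12_smp (hg : GOK c x A0 g) (j : ℕ) (Θ : ChT.den) (S0 : SDT.den) (w : ℕ → ℕ) :
    ∀ e f T S, e = eOf Φ g j Θ w → f = fOf Φ g j Θ w → T = tOf Φ g j Θ S0 f w →
      S = sOf Φ g j Θ T e w →
      SDOK x.1.1 T ∧ SDOK x.1.1 S ∧ (∀ i < x.1.1, T.2.1 i ≠ 0 → sdW T i ≠ 0) ∧
      (∀ i < x.1.1, S.2.1 i ≠ 0 → sdW S i ≠ 0) ∧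
      (∀ i < x.1.1, ∀ p, T.2.1 i = p + 1 → T.2.2.2 p = if f i < ph c x then 1 else 0) ∧
      (∀ i < x.1.1, ∀ p, S.2.1 i = p + 1 → S.2.2.2 p = if e i < ph c x then 1 else 0) := by
  intro e f T S he hf hT hS
  have h0 : gP g 0 = x.1.1 := by rw [gP, hg.hP]; rfl
  have h22 : gP g 22 = ph c x := by rw [gP, hg.hP]; rfl
  have heb : ∀ i < gP g 0, 2 * e i ≤ 2 * gP g 5 := by
    intro i hi
    rw [he]
    exact Nat.mul_le_mul_left 2 ((Φ.rates_eq _ _ _ _ i hi).1)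
  have hfb : ∀ i < gP g 0, 2 * f i ≤ 2 * gP g 5 := by
    intro i hi
    rw [hf]
    exact Nat.mul_le_mul_left 2 ((Φ.rates_eq _ _ _ _ i hi).1)
  unfold tOf at hT
  unfold sOf at hS
  have t1 := Φ.smp_eq (gP g 0) (2 * gP g 5) (gP g 22) f
    (Φ.bad ((gP g 0, gQ g 1 * gLam g j), (f, Φ.clean (topIx g j, (Θ, (gP g 13,
      (wArr (gP g 0) S0, sgb Φ g w (4 * (gP g 13 * gP g 0)))))))))
    (piece w (5 * (gP g 13 * gP g 0)) (gP g 0 * (2 * gP g 5))) hfb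
  have t2 := Φ.smp_ne (gP g 0) (2 * gP g 5) (gP g 22) f
    (Φ.bad ((gP g 0, gQ g 1 * gLam g j), (f, Φ.clean (topIx g j, (Θ, (gP g 13,
      (wArr (gP g 0) S0, sgb Φ g w (4 * (gP g 13 * gP g 0)))))))))
    (piece w (5 * (gP g 13 * gP g 0)) (gP g 0 * (2 * gP g 5))) hfb
  have s1 := Φ.smp_eq (gP g 0) (2 * gP g 5) (gP g 22) e
    (Φ.bad ((gP g 0, gQ g 1 * gLam g (j + 1)), (e, Φ.clean (topIx g j + 1, (Θ, (gP g 13,
      (wArr (gP g 0) T, sgb Φ g w (5 * (gP g 13 * gP g 0) + gP g 0 * (2 * gP g 5)))))))))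
    (piece w (6 * (gP g 13 * gP g 0) + gP g 0 * (2 * gP g 5)) (gP g 0 * (2 * gP g 5))) heb
  have s2 := Φ.smp_ne (gP g 0) (2 * gP g 5) (gP g 22) e
    (Φ.bad ((gP g 0, gQ g 1 * gLam g (j + 1)), (e, Φ.clean (topIx g j + 1, (Θ, (gP g 13,
      (wArr (gP g 0) T, sgb Φ g w (5 * (gP g 13 * gP g 0) + gP g 0 * (2 * gP g 5)))))))))
    (piece w (6 * (gP g 13 * gP g 0) + gP g 0 * (2 * gP g 5)) (gP g 0 * (2 * gP g 5))) heb
  rw [← hT] at t1 t2
  rw [← hS] at s1 s2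
  rw [h22] at t1 s1
  rw [h0] at t1 t2 s1 s2
  exact ⟨t1.1, s1.1, t2, s2, t1.2.2, s1.2.2⟩

end

end

end A55
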